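import Mathlib.RingTheory.IntegralDomain
import Mathlib.RingTheory.RootsOfUnity.AlgebraicallyClosed
import Mathlib.Algebra.MvPolynomial.Monad
import Mathlib.Algebra.Algebra.Operations
import Mathlib.Data.Fintype.Pi
import Mathlib.GroupTheory.PGroup

set_option autoImplicit false

namespace Pool.Agent.H67.QT

open MvPolynomial

section

variable {k : Type} [Field k] {n d : ℕ}

/-- the character `t ↦ ∏ t_i ^ χ_i` of the torus -/
def chr (χ : Fin d → ℤ) (t : Fin d → kˣ) : k := ((∏ i, (t i) ^ (χ i) : kˣ) : k)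

theorem chr_mul (χ : Fin d → ℤ) (s t : Fin d → kˣ) : chr χ (s * t) = chr χ s * chr χ t := by
  unfold chr
  rw [← Units.val_mul, ← Finset.prod_mul_distrib]
  congr 1
  refine Finset.prod_congr rfl fun i _ => ?_
  rw [Pi.mul_apply, mul_zpow]

theorem chr_add (χ ψ : Fin d → ℤ) (t : Fin d → kˣ) : chr (χ + ψ) t = chr χ t * chr ψ t := by
  unfold chr
  rw [← Units.val_mul, ← Finset.prod_mul_distrib]
  congr 1
  refine Finset.prod_congr rfl fun i _ => ?_
  rw [Pi.add_apply, zpow_add]

theorem chr_zero (t : Fin d → kˣ) : chr 0 t = 1 := by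
  unfold chr; simp

theorem chr_one (χ : Fin d → ℤ) : chr χ (1 : Fin d → kˣ) = 1 := by
  unfold chr; simp

theorem chr_inv (χ : Fin d → ℤ) (t : Fin d → kˣ) : chr χ t⁻¹ = chr (-χ) t := by
  unfold chr
  congr 1
  refine Finset.prod_congr rfl fun i _ => ?_
  rw [Pi.inv_apply, Pi.neg_apply, inv_zpow, zpow_neg]

/-- functions on the torus with values in the polynomial ring which are finite combinations of
characters -/
noncomputable def Lau (k : Type) [Field k] (n d : ℕ) :
    Submodule (MvPolynomial (Fin n) k) ((Fin d → kˣ) → MvPolynomial (Fin n) k) :=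
  Submodule.span _ (Set.range fun χ : Fin d → ℤ => fun t => C (chr χ t))

theorem Lau_chr (χ : Fin d → ℤ) : (fun t => C (chr χ t)) ∈ Lau k n d :=
  Submodule.subset_span ⟨χ, rfl⟩

theorem Lau_const (a : MvPolynomial (Fin n) k) : (fun _ => a) ∈ Lau k n d := by
  have h := (Lau k n d).smul_mem a (Lau_chr (0 : Fin d → ℤ))
  have h2 : (a • fun t => C (chr (0 : Fin d → ℤ) t)) =
      (fun _ => a : (Fin d → kˣ) → MvPolynomial (Fin n) k) := by
    funext t
    simp [chr_zero]
  rwa [h2] at h

theorem Lau_mul {f g : (Fin d → kˣ) → MvPolynomial (Fin n) k} (hf : f ∈ Lau k n d)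
    (hg : g ∈ Lau k n d) : (fun t => f t * g t) ∈ Lau k n d := by
  unfold Lau at hf hg
  induction hf using Submodule.span_induction with
  | mem x hx =>
    obtain ⟨χ, rfl⟩ := hx
    induction hg using Submodule.span_induction with
    | mem y hy =>
      obtain ⟨ψ, rfl⟩ := hy
      have h := Lau_chr (k := k) (n := n) (χ + ψ)
      have h2 : (fun t => C (chr (χ + ψ) t)) =
          (fun t => C (chr χ t) * C (chr ψ t) : (Fin d → kˣ) → MvPolynomial (Fin n) k) := by
        funext t; rw [chr_add, C_mul]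
      rwa [h2] at h
    | zero =>
      have h2 : (fun t => C (chr χ t) * (0 : (Fin d → kˣ) → MvPolynomial (Fin n) k) t) = 0 := by
        funext t; simp
      rw [h2]; exact Submodule.zero_mem _
    | add y z _ _ hy hz =>
      have h2 : (fun t => C (chr χ t) * (y + z) t) =
          (fun t => C (chr χ t) * y t) + fun t => C (chr χ t) * z t := by
        funext t; simp [mul_add]
      rw [h2]; exact Submodule.add_mem _ hy hz
    | smul a y _ hy =>
      have h2 : (fun t => C (chr χ t) * (a • y) t) = a • fun t => C (chr χ t) * y t := by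
        funext t; simp [mul_left_comm]
      rw [h2]; exact Submodule.smul_mem _ _ hy
  | zero =>
    have h2 : (fun t => (0 : (Fin d → kˣ) → MvPolynomial (Fin n) k) t * g t) = 0 := by
      funext t; simp
    rw [h2]; exact Submodule.zero_mem _
  | add y z _ _ hy hz =>
    have h2 : (fun t => (y + z) t * g t) = (fun t => y t * g t) + fun t => z t * g t := by
      funext t; simp [add_mul]
    rw [h2]; exact Submodule.add_mem _ hy hz
  | smul a y _ hy =>
    have h2 : (fun t => (a • y) t * g t) = a • fun t => y t * g t := by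
      funext t; simp [mul_assoc]
    rw [h2]; exact Submodule.smul_mem _ _ hy

theorem Lau_inv {f : (Fin d → kˣ) → MvPolynomial (Fin n) k} (hf : f ∈ Lau k n d) :
    (fun t => f t⁻¹) ∈ Lau k n d := by
  unfold Lau at hf
  induction hf using Submodule.span_induction with
  | mem x hx =>
    obtain ⟨χ, rfl⟩ := hx
    have h := Lau_chr (k := k) (n := n) (-χ)
    have h2 : (fun t => C (chr (-χ) t)) =
        (fun t => C (chr χ t⁻¹) : (Fin d → kˣ) → MvPolynomial (Fin n) k) := by
      funext t; rw [chr_inv]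
    rwa [h2] at h
  | zero => exact Submodule.zero_mem _
  | add y z _ _ hy hz => exact Submodule.add_mem _ hy hz
  | smul a y _ hy => exact Submodule.smul_mem _ a hy

theorem Lau_lin (θ : MvPolynomial (Fin n) k →ₗ[k] MvPolynomial (Fin n) k)
    {f : (Fin d → kˣ) → MvPolynomial (Fin n) k} (hf : f ∈ Lau k n d) :
    (fun t => θ (f t)) ∈ Lau k n d := by
  have key : ∀ a : MvPolynomial (Fin n) k, (fun t => θ (a * f t)) ∈ Lau k n d := by
    unfold Lau at hf
    induction hf using Submodule.span_induction with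
    | mem x hx =>
      obtain ⟨χ, rfl⟩ := hx
      intro a
      have h := (Lau k n d).smul_mem (θ a) (Lau_chr χ)
      have h2 : (θ a • fun t => C (chr χ t)) =
          (fun t => θ (a * C (chr χ t)) : (Fin d → kˣ) → MvPolynomial (Fin n) k) := by
        funext t
        rw [mul_comm a, ← smul_eq_C_mul, map_smul]
        rw [Pi.smul_apply, smul_eq_mul, mul_comm, ← smul_eq_C_mul]
      rwa [h2] at h
    | zero =>
      intro a
      have h2 : (fun t => θ (a * (0 : (Fin d → kˣ) → MvPolynomial (Fin n) k) t)) = 0 := by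
        funext t; simp
      rw [h2]; exact Submodule.zero_mem _
    | add y z _ _ hy hz =>
      intro a
      have h2 : (fun t => θ (a * (y + z) t)) =
          (fun t => θ (a * y t)) + fun t => θ (a * z t) := by
        funext t; simp [mul_add]
      rw [h2]; exact Submodule.add_mem _ (hy a) (hz a)
    | smul b y _ hy =>
      intro a
      have h2 : (fun t => θ (a * (b • y) t)) = fun t => θ ((a * b) * y t) := by
        funext t; simp [mul_assoc]
      rw [h2]; exact hy _
  have h := key 1
  simpa using h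

theorem Lau_sum {ι : Type} (s : Finset ι) (f : ι → (Fin d → kˣ) → MvPolynomial (Fin n) k)
    (hf : ∀ i ∈ s, f i ∈ Lau k n d) : (fun t => ∑ i ∈ s, f i t) ∈ Lau k n d := by
  have h := (Lau k n d).sum_mem hf
  have h2 : ∑ i ∈ s, f i = fun t => ∑ i ∈ s, f i t := by
    funext t; simp
  rwa [h2] at h

theorem Lau_aeval (F : MvPolynomial (Fin d ⊕ Fin n) k) :
    (fun t : Fin d → kˣ => aeval (Sum.elim (fun i : Fin d => C ((t i : kˣ) : k))
      (fun l : Fin n => (X l : MvPolynomial (Fin n) k))) F) ∈ Lau k n d := by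
  induction F using MvPolynomial.induction_on with
  | C a =>
    simp only [algHom_C, algebraMap_eq]
    exact Lau_const _
  | add p q hp hq =>
    simp only [map_add]
    exact (Lau k n d).add_mem hp hq
  | mul_X p i hp =>
    simp only [map_mul, aeval_X]
    refine Lau_mul hp ?_
    rcases i with i | l
    · have h := Lau_chr (k := k) (n := n) (Pi.single i 1)
      have h2 : (fun t => C (chr (Pi.single i 1) t)) =
          (fun t => C ((t i : kˣ) : k) : (Fin d → kˣ) → MvPolynomial (Fin n) k) := by
        funext t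
        congr 1
        unfold chr
        congr 1
        rw [Finset.prod_eq_single i]
        · simp
        · intro b _ hb
          rw [Pi.single_eq_of_ne hb, zpow_zero]
        · intro h; exact absurd (Finset.mem_univ _) h
      rw [h2] at h
      exact h
    · exact Lau_const _

theorem Lau_of_alg (f : (Fin d → kˣ) → MvPolynomial (Fin n) k) (m : ℕ)
    (F : MvPolynomial (Fin d ⊕ Fin n) k)
    (h : ∀ t : Fin d → kˣ, C ((∏ i, ((t i : kˣ) : k)) ^ m) * f t =
      aeval (Sum.elim (fun i : Fin d => C ((t i : kˣ) : k))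
        (fun l : Fin n => (X l : MvPolynomial (Fin n) k))) F) : f ∈ Lau k n d := by
  have h1 := Lau_mul (Lau_chr (k := k) (n := n) (fun _ : Fin d => -(m : ℤ))) (Lau_aeval F)
  have h2 : (fun t : Fin d → kˣ => C (chr (fun _ : Fin d => -(m : ℤ)) t) *
      aeval (Sum.elim (fun i : Fin d => C ((t i : kˣ) : k))
        (fun l : Fin n => (X l : MvPolynomial (Fin n) k))) F) = f := by
    funext t
    rw [← h t, ← mul_assoc, ← C_mul]
    have h3 : chr (fun _ : Fin d => -(m : ℤ)) t * (∏ i, ((t i : kˣ) : k)) ^ m = 1 := by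
      unfold chr
      have h4 : (∏ i, ((t i : kˣ) : k)) ^ m = (((∏ i, t i) ^ m : kˣ) : k) := by
        simp
      rw [h4, ← Units.val_mul]
      have h5 : (∏ i, (t i) ^ (-(m : ℤ))) * (∏ i, t i) ^ m = 1 := by
        rw [← Finset.prod_pow, ← Finset.prod_mul_distrib]
        refine Finset.prod_eq_one fun i _ => ?_
        rw [zpow_neg, zpow_natCast, inv_mul_cancel]
      rw [h5]
      rfl
    rw [h3, C_1, one_mul]
  rwa [h2] at h1

/-- the inclusion of the `2 ^ N`-torsion points of the torus -/
def iota (k : Type) [Field k] (d N : ℕ) :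
    (Fin d → rootsOfUnity (2 ^ N) k) →* (Fin d → kˣ) where
  toFun g i := (g i : kˣ)
  map_one' := rfl
  map_mul' _ _ := rfl

noncomputable instance fintypeTors (k : Type) [Field k] (d N : ℕ) :
    Fintype (Fin d → rootsOfUnity (2 ^ N) k) :=
  have : NeZero (2 ^ N : ℕ) := ⟨by positivity⟩
  Fintype.ofFinite _

theorem isPGroup_tors (k : Type) [Field k] (d N : ℕ) :
    IsPGroup 2 (Fin d → rootsOfUnity (2 ^ N) k) := by
  intro g
  refine ⟨N, ?_⟩
  funext i
  have h := (g i).2
  rw [mem_rootsOfUnity] at h
  apply Subtype.ext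
  rw [Pi.pow_apply]
  exact h

theorem sum_chr [IsAlgClosed k] [CharZero k] (χ : Fin d → ℤ) (hχ : χ ≠ 0) :
    ∃ N0 : ℕ, ∀ N, N0 ≤ N →
      ∑ g : Fin d → rootsOfUnity (2 ^ N) k, chr χ (iota k d N g) = 0 := by
  obtain ⟨i, hi⟩ := Function.ne_iff.1 hχ
  refine ⟨(χ i).natAbs, fun N hN => ?_⟩
  let f : (Fin d → rootsOfUnity (2 ^ N) k) →* k :=
    { toFun := fun g => chr χ (iota k d N g)
      map_one' := by rw [map_one, chr_one]
      map_mul' := fun g h => by rw [map_mul, chr_mul] }
  have hf : f ≠ 1 := by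
    intro h1
    have hne : NeZero (2 ^ N : ℕ) := ⟨by positivity⟩
    obtain ⟨ζ, hζ⟩ := HasEnoughRootsOfUnity.exists_primitiveRoot k (2 ^ N)
    let u : rootsOfUnity (2 ^ N) k := hζ.toRootsOfUnity
    have h2 := DFunLike.congr_fun h1 (Pi.mulSingle i u)
    change chr χ (iota k d N (Pi.mulSingle i u)) = 1 at h2
    have h3 : chr χ (iota k d N (Pi.mulSingle i u)) = ζ ^ (χ i) := by
      unfold chr
      rw [Finset.prod_eq_single i]
      · simp [iota, u]
      · intro b _ hb
        simp [iota, Pi.mulSingle_eq_of_ne hb]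
      · intro h; exact absurd (Finset.mem_univ _) h
    rw [h3, hζ.zpow_eq_one_iff_dvd] at h2
    have h4 : (2 ^ N : ℕ) ∣ (χ i).natAbs := by
      have := Int.natAbs_dvd_natAbs.2 h2
      simpa using this
    have h5 : 0 < (χ i).natAbs := Int.natAbs_pos.2 hi
    have h6 := Nat.le_of_dvd h5 h4
    have h7 : N < 2 ^ N := Nat.lt_two_pow_self
    omega
  exact sum_hom_units_eq_zero f hf

/-- averages over large finite subgroups of the torus are translation invariant -/
theorem avg [IsAlgClosed k] [CharZero k] {f : (Fin d → kˣ) → MvPolynomial (Fin n) k}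
    (hf : f ∈ Lau k n d) : ∃ N0 : ℕ, ∀ N, N0 ≤ N → ∀ s : Fin d → kˣ,
      ∑ g : Fin d → rootsOfUnity (2 ^ N) k, f (s * iota k d N g) =
        ∑ g : Fin d → rootsOfUnity (2 ^ N) k, f (iota k d N g) := by
  unfold Lau at hf
  induction hf using Submodule.span_induction with
  | mem x hx =>
    obtain ⟨χ, rfl⟩ := hx
    by_cases h0 : χ = 0
    · refine ⟨0, fun N _ s => ?_⟩
      subst h0
      simp [chr_zero]
    · obtain ⟨N0, hN0⟩ := sum_chr (k := k) χ h0
      refine ⟨N0, fun N hN s => ?_⟩
      have h1 := hN0 N hN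
      have h2 : ∀ s : Fin d → kˣ, ∑ g : Fin d → rootsOfUnity (2 ^ N) k,
          (C (chr χ (s * iota k d N g)) : MvPolynomial (Fin n) k) = 0 := by
        intro s
        rw [← map_sum]
        simp only [chr_mul]
        rw [← Finset.mul_sum, h1, mul_zero, map_zero]
      have h3 := h2 1
      simp only [one_mul] at h3
      rw [h2 s, h3]
  | zero => exact ⟨0, fun N _ s => by simp⟩
  | add y z _ _ hy hz =>
    obtain ⟨N1, h1⟩ := hy
    obtain ⟨N2, h2⟩ := hz
    refine ⟨max N1 N2, fun N hN s => ?_⟩
    simp only [Pi.add_apply, Finset.sum_add_distrib]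
    rw [h1 N (le_trans (le_max_left _ _) hN) s, h2 N (le_trans (le_max_right _ _) hN) s]
  | smul a y _ hy =>
    obtain ⟨N1, h1⟩ := hy
    refine ⟨N1, fun N hN s => ?_⟩
    simp only [Pi.smul_apply, ← Finset.smul_sum]
    rw [h1 N hN s]

end

end Pool.Agent.H67.QT
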