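import Mathlib.RingTheory.MvPolynomial.Homogeneous
import Mathlib.RingTheory.MvPolynomial.Ideal
import Mathlib.Algebra.MvPolynomial.Monad
import Mathlib.Algebra.Polynomial.Roots
import Mathlib.Algebra.Ring.Action.Group
import Mathlib.Tactic.LinearCombination
import Mathlib.Tactic.Group

set_option autoImplicit false

namespace Pool.Agent.H67.QT

open MvPolynomial

section

variable {k : Type} [Field k] {n : ℕ} {Γ : Type} [Group Γ]

/-- coefficients of the linear part -/
noncomputable def lc (ρ : Γ →* (MvPolynomial (Fin n) k ≃ₐ[k] MvPolynomial (Fin n) k))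
    (t : Γ) (j l : Fin n) : k := coeff (Finsupp.single l 1) (ρ t (X j))

/-- the linear part -/
noncomputable def Lp (ρ : Γ →* (MvPolynomial (Fin n) k ≃ₐ[k] MvPolynomial (Fin n) k))
    (t : Γ) (j : Fin n) : MvPolynomial (Fin n) k := ∑ l, C (lc ρ t j l) * X l

/-- the nonlinear part -/
noncomputable def Hp (ρ : Γ →* (MvPolynomial (Fin n) k ≃ₐ[k] MvPolynomial (Fin n) k))
    (t : Γ) (j : Fin n) : MvPolynomial (Fin n) k := ρ t (X j) - Lp ρ t j

/-- the linear substitution -/
noncomputable def lam (ρ : Γ →* (MvPolynomial (Fin n) k ≃ₐ[k] MvPolynomial (Fin n) k))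
    (t : Γ) : MvPolynomial (Fin n) k →ₐ[k] MvPolynomial (Fin n) k := aeval (Lp ρ t)

/-- all nonlinear monomials of the action have degree in `[e, 2 e - 2]`, and there are no
constant terms -/
def Gap (e : ℕ) (ρ : Γ →* (MvPolynomial (Fin n) k ≃ₐ[k] MvPolynomial (Fin n) k)) : Prop :=
  ∀ (t : Γ) (j : Fin n), ∀ m ∈ (ρ t (X j)).support,
    m.degree = 1 ∨ (e ≤ m.degree ∧ m.degree ≤ 2 * e - 2)

variable {ρ : Γ →* (MvPolynomial (Fin n) k ≃ₐ[k] MvPolynomial (Fin n) k)} {e : ℕ}

theorem Lp_hom (t : Γ) (j : Fin n) : (Lp ρ t j).IsHomogeneous 1 := by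
  unfold Lp
  exact IsHomogeneous.sum _ _ _ fun l _ => isHomogeneous_C_mul_X _ _

theorem degree_one {m : Fin n →₀ ℕ} (hm : m.degree = 1) :
    ∃ l, m = Finsupp.single l 1 := by
  exact (Finsupp.sum_eq_one_iff m).1 hm

theorem coeff_Lp (t : Γ) (j l : Fin n) :
    coeff (Finsupp.single l 1) (Lp ρ t j) = lc ρ t j l := by
  classical
  unfold Lp
  rw [coeff_sum, Finset.sum_eq_single l]
  · rw [coeff_C_mul, coeff_X, if_pos rfl, mul_one]
  · intro b _ hb
    rw [coeff_C_mul, coeff_X, if_neg, mul_zero]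
    intro h
    exact hb (Finsupp.single_left_injective one_ne_zero h)
  · intro h; exact absurd (Finset.mem_univ _) h

theorem Hp_support (hρ : Gap e ρ) (t : Γ) (j : Fin n) :
    ∀ m ∈ (Hp ρ t j).support, e ≤ m.degree ∧ m.degree ≤ 2 * e - 2 := by
  intro m hm
  rw [mem_support_iff, Hp, coeff_sub] at hm
  by_cases h1 : m.degree = 1
  · exfalso
    obtain ⟨l, rfl⟩ := degree_one h1
    rw [coeff_Lp] at hm
    exact hm (sub_self _)
  · rw [(Lp_hom t j).coeff_eq_zero h1, sub_zero] at hm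
    rcases hρ t j m (mem_support_iff.2 hm) with h | h
    · exact absurd h h1
    · exact h

/-- the `k`-span of the nonlinear parts -/
noncomputable def Ksp (ρ : Γ →* (MvPolynomial (Fin n) k ≃ₐ[k] MvPolynomial (Fin n) k)) :
    Submodule k (MvPolynomial (Fin n) k) :=
  Submodule.span k (Set.range fun tj : Γ × Fin n => Hp ρ tj.1 tj.2)

theorem Hp_mem (t : Γ) (j : Fin n) : Hp ρ t j ∈ Ksp ρ := Submodule.subset_span ⟨(t, j), rfl⟩

theorem Ksp_support (hρ : Gap e ρ) {q : MvPolynomial (Fin n) k} (hq : q ∈ Ksp ρ) :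
    ∀ m ∈ q.support, e ≤ m.degree ∧ m.degree ≤ 2 * e - 2 := by
  have h : Ksp ρ ≤ restrictSupport k {m | e ≤ m.degree ∧ m.degree ≤ 2 * e - 2} := by
    refine Submodule.span_le.2 ?_
    rintro _ ⟨tj, rfl⟩
    rw [SetLike.mem_coe, mem_restrictSupport_iff]
    exact fun m hm => Hp_support hρ _ _ m hm
  have h2 := h hq
  rw [mem_restrictSupport_iff] at h2
  exact fun m hm => h2 hm

theorem X_mem (i : Fin n) : (X i : MvPolynomial (Fin n) k) ∈ (idealOfVars (Fin n) k) :=
  Ideal.subset_span ⟨i, rfl⟩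

theorem Lp_mem (t : Γ) (j : Fin n) : Lp ρ t j ∈ (idealOfVars (Fin n) k) := by
  unfold Lp
  exact Ideal.sum_mem _ fun l _ => Ideal.mul_mem_left _ _ (X_mem l)

theorem Hp_mem_pow (hρ : Gap e ρ) (t : Γ) (j : Fin n) : Hp ρ t j ∈ (idealOfVars (Fin n) k) ^ e := by
  rw [mem_pow_idealOfVars_iff]
  exact fun m hm => (Hp_support hρ t j m hm).1

theorem rho_X (t : Γ) (j : Fin n) : ρ t (X j) = Lp ρ t j + Hp ρ t j := by
  unfold Hp; ring

theorem rho_X_mem (he : 1 ≤ e) (hρ : Gap e ρ) (t : Γ) (j : Fin n) : ρ t (X j) ∈ (idealOfVars (Fin n) k) := by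
  rw [rho_X]
  refine Ideal.add_mem _ (Lp_mem t j) ?_
  exact Ideal.pow_le_self (by omega) (Hp_mem_pow hρ t j)

theorem rho_mem_pow (he : 1 ≤ e) (hρ : Gap e ρ) (t : Γ) (a : ℕ)
    {q : MvPolynomial (Fin n) k} (hq : q ∈ (idealOfVars (Fin n) k) ^ a) : ρ t q ∈ (idealOfVars (Fin n) k) ^ a := by
  have h1 : Ideal.map (ρ t : MvPolynomial (Fin n) k →+* MvPolynomial (Fin n) k) ((idealOfVars (Fin n) k) ^ a) ≤
      (idealOfVars (Fin n) k) ^ a := by
    rw [Ideal.map_pow]
    refine Ideal.pow_right_mono ?_ a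
    rw [Ideal.map_span, Ideal.span_le]
    rintro _ ⟨_, ⟨i, rfl⟩, rfl⟩
    exact rho_X_mem he hρ t i
  exact h1 (Ideal.mem_map_of_mem _ hq)

theorem diff_mem (he : 1 ≤ e) (hρ : Gap e ρ) (t : Γ) (a : ℕ)
    {q : MvPolynomial (Fin n) k} (hq : q ∈ (idealOfVars (Fin n) k) ^ a) :
    ρ t q - lam ρ t q ∈ (idealOfVars (Fin n) k) ^ (a + (e - 1)) := by
  have hstep : ∀ (b : ℕ) (p : MvPolynomial (Fin n) k) (i : Fin n), ρ t p ∈ (idealOfVars (Fin n) k) ^ b →
      ρ t p - lam ρ t p ∈ (idealOfVars (Fin n) k) ^ (b + (e - 1)) →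
      ρ t (p * X i) - lam ρ t (p * X i) ∈ (idealOfVars (Fin n) k) ^ (b + 1 + (e - 1)) := by
    intro b p i h1 h2
    have h3 : ρ t (p * X i) - lam ρ t (p * X i) =
        ρ t p * Hp ρ t i + (ρ t p - lam ρ t p) * Lp ρ t i := by
      have h4 : lam ρ t (X i) = Lp ρ t i := by unfold lam; rw [aeval_X]
      rw [map_mul, map_mul, h4, rho_X]; ring
    rw [h3]
    refine Ideal.add_mem _ ?_ ?_
    · have h5 : b + 1 + (e - 1) = b + e := by omega
      rw [h5, pow_add]
      exact Ideal.mul_mem_mul h1 (Hp_mem_pow hρ t i)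
    · have h5 : b + 1 + (e - 1) = (b + (e - 1)) + 1 := by omega
      rw [h5, pow_succ]
      exact Ideal.mul_mem_mul h2 (Lp_mem t i)
  induction a generalizing q with
  | zero =>
    clear hq
    induction q using MvPolynomial.induction_on with
    | C c =>
      have h1 : ρ t (C c) = C c := by
        rw [← algebraMap_eq]; exact AlgEquiv.commutes _ c
      have h2 : lam ρ t (C c) = C c := by unfold lam; rw [algHom_C, algebraMap_eq]
      rw [h1, h2, sub_self]; exact Ideal.zero_mem _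
    | add p q hp hq =>
      have h : ρ t (p + q) - lam ρ t (p + q) =
          (ρ t p - lam ρ t p) + (ρ t q - lam ρ t q) := by
        rw [map_add, map_add]; ring
      rw [h]; exact Ideal.add_mem _ hp hq
    | mul_X p i hp =>
      have h := hstep 0 p i (by simp) hp
      exact Ideal.pow_le_pow_right (by omega) h
  | succ a ih =>
    rw [pow_succ] at hq
    refine Submodule.mul_induction_on hq ?_ ?_
    · intro p hp r hr
      have key : ∀ p ∈ (idealOfVars (Fin n) k) ^ a, ρ t (p * r) - lam ρ t (p * r) ∈ (idealOfVars (Fin n) k) ^ (a + 1 + (e - 1)) := by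
        refine Submodule.span_induction (p := fun r _ => ∀ p ∈ (idealOfVars (Fin n) k) ^ a,
          ρ t (p * r) - lam ρ t (p * r) ∈ (idealOfVars (Fin n) k) ^ (a + 1 + (e - 1))) ?_ ?_ ?_ ?_ hr
        · rintro _ ⟨i, rfl⟩ p hp
          exact hstep a p i (rho_mem_pow he hρ t a hp) (ih hp)
        · intro p _
          simp
        · intro x y _ _ hx hy p hp
          have h : ρ t (p * (x + y)) - lam ρ t (p * (x + y)) =
              (ρ t (p * x) - lam ρ t (p * x)) + (ρ t (p * y) - lam ρ t (p * y)) := by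
            rw [mul_add, map_add, map_add]; ring
          rw [h]; exact Ideal.add_mem _ (hx p hp) (hy p hp)
        · intro c x _ hx p hp
          have h : p * (c • x) = (p * c) * x := by rw [smul_eq_mul]; ring
          rw [h]
          exact hx _ (Ideal.mul_mem_right _ _ hp)
      exact key p hp
    · intro x y hx hy
      have h : ρ t (x + y) - lam ρ t (x + y) =
          (ρ t x - lam ρ t x) + (ρ t y - lam ρ t y) := by
        rw [map_add, map_add]; ring
      rw [h]; exact Ideal.add_mem _ hx hy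

theorem lam_support (t : Γ) (b : ℕ) {q : MvPolynomial (Fin n) k}
    (hq : ∀ m ∈ q.support, m.degree ≤ b) : ∀ m ∈ (lam ρ t q).support, m.degree ≤ b := by
  have h1 : lam ρ t q ∈ restrictSupport k {m : Fin n →₀ ℕ | m.degree ≤ b} := by
    rw [q.as_sum, map_sum]
    refine Submodule.sum_mem _ fun m hm => ?_
    have h2 : (lam ρ t (monomial m (coeff m q))).IsHomogeneous (1 * m.degree) := by
      unfold lam
      exact (isHomogeneous_monomial _ rfl).aeval _ (fun i => Lp_hom t i)
    rw [mem_restrictSupport_iff]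
    intro m' hm'
    by_contra hne
    have h3 : m'.degree ≠ 1 * m.degree := by
      intro h4
      apply hne
      change m'.degree ≤ b
      rw [h4, one_mul]
      exact hq m hm
    exact (mem_support_iff.1 hm') (h2.coeff_eq_zero h3)
  rw [mem_restrictSupport_iff] at h1
  exact fun m hm => h1 hm

theorem rho_Lp (t s : Γ) (j : Fin n) :
    ρ t (Lp ρ s j) = lam ρ t (Lp ρ s j) + ∑ l, C (lc ρ s j l) * Hp ρ t l := by
  have h1 : ρ t (Lp ρ s j) = ∑ l, C (lc ρ s j l) * ρ t (X l) := by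
    unfold Lp
    rw [map_sum]
    refine Finset.sum_congr rfl fun l _ => ?_
    rw [map_mul]
    congr 1
    rw [← algebraMap_eq]; exact AlgEquiv.commutes _ _
  have h2 : lam ρ t (Lp ρ s j) = ∑ l, C (lc ρ s j l) * Lp ρ t l := by
    conv_lhs => unfold Lp lam
    rw [map_sum]
    refine Finset.sum_congr rfl fun l _ => ?_
    rw [map_mul, aeval_X, algHom_C, algebraMap_eq]
  rw [h1, h2, ← Finset.sum_add_distrib]
  refine Finset.sum_congr rfl fun l _ => ?_
  rw [rho_X]; ring

theorem lam_Lp_hom (t s : Γ) (j : Fin n) : (lam ρ t (Lp ρ s j)).IsHomogeneous 1 := by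
  have h := (Lp_hom (ρ := ρ) s j).aeval (Lp ρ t) (fun i => Lp_hom t i)
  simpa [lam] using h

/-- a linear form of order at least two vanishes -/
theorem eq_zero_of_hom {q : MvPolynomial (Fin n) k} (h1 : q.IsHomogeneous 1)
    (h2 : q ∈ (idealOfVars (Fin n) k) ^ 2) : q = 0 := by
  rw [mem_pow_idealOfVars_iff] at h2
  ext m
  rw [coeff_zero]
  by_contra hne
  have h3 := h2 m (mem_support_iff.2 hne)
  have h4 : m.degree = 1 := by
    by_contra h5
    exact hne (h1.coeff_eq_zero h5)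
  omega

theorem rho_mul_X (t s : Γ) (j : Fin n) : ρ t (ρ s (X j)) = ρ (t * s) (X j) := by
  rw [map_mul]; rfl

theorem key_identity (t s : Γ) (j : Fin n) :
    Lp ρ (t * s) j - lam ρ t (Lp ρ s j) =
      ρ t (Hp ρ s j) - Hp ρ (t * s) j + ∑ l, C (lc ρ s j l) * Hp ρ t l := by
  have h1 : ρ t (Hp ρ s j) = ρ (t * s) (X j) - ρ t (Lp ρ s j) := by
    conv_lhs => unfold Hp
    rw [map_sub, rho_mul_X]
  rw [h1, rho_Lp, rho_X (t * s) j]; ring

theorem lam_Lp (he : 2 ≤ e) (hρ : Gap e ρ) (t s : Γ) (j : Fin n) :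
    lam ρ t (Lp ρ s j) = Lp ρ (t * s) j := by
  have h1 : Lp ρ (t * s) j - lam ρ t (Lp ρ s j) = 0 := by
    refine eq_zero_of_hom ((Lp_hom _ _).sub (lam_Lp_hom t s j)) ?_
    rw [key_identity]
    have hH : ∀ t j, Hp ρ t j ∈ (idealOfVars (Fin n) k) ^ 2 := fun t j =>
      Ideal.pow_le_pow_right he (Hp_mem_pow hρ t j)
    refine Ideal.add_mem _ (Ideal.sub_mem _ (rho_mem_pow (by omega) hρ t 2 (hH s j))
      (hH _ j)) ?_
    exact Ideal.sum_mem _ fun l _ => Ideal.mul_mem_left _ _ (hH t l)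
  exact (sub_eq_zero.1 h1).symm

theorem rho_Ksp (he : 2 ≤ e) (hρ : Gap e ρ) (t : Γ) {q : MvPolynomial (Fin n) k}
    (hq : q ∈ Ksp ρ) : ρ t q ∈ Ksp ρ := by
  unfold Ksp at hq
  induction hq using Submodule.span_induction with
  | mem x hx =>
    obtain ⟨⟨s, j⟩, rfl⟩ := hx
    have h1 := key_identity (ρ := ρ) t s j
    rw [lam_Lp he hρ t s j, sub_self] at h1
    have h2 : ρ t (Hp ρ s j) = Hp ρ (t * s) j - ∑ l, (lc ρ s j l) • Hp ρ t l := by
      simp only [smul_eq_C_mul]
      linear_combination -h1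
    change ρ t (Hp ρ s j) ∈ Ksp ρ
    rw [h2]
    exact Submodule.sub_mem _ (Hp_mem _ _)
      (Submodule.sum_mem _ fun l _ => Submodule.smul_mem _ _ (Hp_mem _ _))
  | zero => rw [map_zero]; exact Submodule.zero_mem _
  | add x y _ _ hx hy => rw [map_add]; exact Submodule.add_mem _ hx hy
  | smul c x _ hx => rw [map_smul]; exact Submodule.smul_mem _ _ hx

theorem rho_eq_lam (he : 2 ≤ e) (hρ : Gap e ρ) (t : Γ) {q : MvPolynomial (Fin n) k}
    (hq : q ∈ Ksp ρ) : ρ t q = lam ρ t q := by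
  have h1 : ∀ m ∈ (ρ t q).support, m.degree ≤ 2 * e - 2 := fun m hm =>
    (Ksp_support hρ (rho_Ksp he hρ t hq) m hm).2
  have h2 : ∀ m ∈ (lam ρ t q).support, m.degree ≤ 2 * e - 2 :=
    lam_support t _ fun m hm => (Ksp_support hρ hq m hm).2
  have h3 : q ∈ (idealOfVars (Fin n) k) ^ e := by
    rw [mem_pow_idealOfVars_iff]
    exact fun m hm => (Ksp_support hρ hq m hm).1
  have h4 := diff_mem (by omega) hρ t e h3
  rw [mem_pow_idealOfVars_iff] at h4
  rw [← sub_eq_zero]
  ext m
  rw [coeff_zero]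
  by_contra hne
  have h5 := h4 m (mem_support_iff.2 hne)
  rw [coeff_sub] at hne
  have h6 : m.degree ≤ 2 * e - 2 := by
    by_cases h7 : coeff m (ρ t q) = 0
    · apply h2 m
      rw [mem_support_iff]
      intro h8
      rw [h7, h8, sub_zero] at hne
      exact hne rfl
    · exact h1 m (mem_support_iff.2 h7)
  omega

/-- the translation endomorphism `X_i ↦ X_i + v_i` -/
noncomputable def tau (v : Fin n → MvPolynomial (Fin n) k) :
    MvPolynomial (Fin n) k →ₐ[k] MvPolynomial (Fin n) k := aeval fun i => X i + v i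

/-- good translation vectors -/
def Good (K : Submodule k (MvPolynomial (Fin n) k)) (v : Fin n → MvPolynomial (Fin n) k) :
    Prop :=
  (∀ i, v i ∈ K) ∧ ∀ q ∈ K, tau v q = q

theorem tau_add {K : Submodule k (MvPolynomial (Fin n) k)}
    {v w : Fin n → MvPolynomial (Fin n) k} (hv : Good K v) (hw : Good K w)
    (q : MvPolynomial (Fin n) k) : tau (v + w) q = tau v (tau w q) := by
  have h : tau (v + w) = (tau v).comp (tau w) := by
    apply MvPolynomial.algHom_ext
    intro i
    rw [AlgHom.comp_apply]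
    unfold tau
    rw [aeval_X, aeval_X, map_add, aeval_X]
    have h1 := hv.2 _ (hw.1 i)
    unfold tau at h1
    rw [h1, Pi.add_apply]; ring
  rw [h]; rfl

theorem Good.add {K : Submodule k (MvPolynomial (Fin n) k)}
    {v w : Fin n → MvPolynomial (Fin n) k} (hv : Good K v) (hw : Good K w) :
    Good K (v + w) := by
  refine ⟨fun i => K.add_mem (hv.1 i) (hw.1 i), fun q hq => ?_⟩
  rw [tau_add hv hw, hw.2 q hq, hv.2 q hq]

theorem tau_zero (q : MvPolynomial (Fin n) k) : tau 0 q = q := by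
  have h : tau (0 : Fin n → MvPolynomial (Fin n) k) = AlgHom.id k _ := by
    apply MvPolynomial.algHom_ext
    intro i
    unfold tau
    rw [aeval_X, Pi.zero_apply, add_zero]
    rfl
  rw [h]; rfl

theorem Good.zero (K : Submodule k (MvPolynomial (Fin n) k)) : Good K 0 :=
  ⟨fun _ => K.zero_mem, fun q _ => tau_zero q⟩

theorem Good.nsmul {K : Submodule k (MvPolynomial (Fin n) k)}
    {v : Fin n → MvPolynomial (Fin n) k} (hv : Good K v) (m : ℕ) :
    Good K (m • v) := by
  induction m with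
  | zero => rw [zero_smul]; exact Good.zero K
  | succ m ih => rw [succ_nsmul]; exact ih.add hv

theorem Good.smul [CharZero k] {K : Submodule k (MvPolynomial (Fin n) k)}
    {v : Fin n → MvPolynomial (Fin n) k} (hv : Good K v) (c : k) :
    Good K (c • v) := by
  refine ⟨fun i => K.smul_mem c (hv.1 i), fun q hq => ?_⟩
  -- a polynomial in an extra variable
  let Φ : MvPolynomial (Fin n) k →ₐ[k] Polynomial (MvPolynomial (Fin n) k) :=
    aeval fun i => Polynomial.C (X i) + Polynomial.X * Polynomial.C (v i)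
  have hev : ∀ (c : k) (q : MvPolynomial (Fin n) k),
      (Φ q).eval (C c) = tau (c • v) q := by
    intro c q
    let ev : Polynomial (MvPolynomial (Fin n) k) →ₐ[k] MvPolynomial (Fin n) k :=
      { Polynomial.evalRingHom (C c : MvPolynomial (Fin n) k) with
        commutes' := fun r => by
          simp [Polynomial.algebraMap_apply] }
    have h1 : ev.comp Φ = tau (c • v) := by
      apply MvPolynomial.algHom_ext
      intro i
      rw [AlgHom.comp_apply]
      unfold tau
      simp only [Φ, aeval_X]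
      change Polynomial.eval (C c) _ = _
      rw [Polynomial.eval_add, Polynomial.eval_mul, Polynomial.eval_C, Polynomial.eval_X,
        Polynomial.eval_C, Pi.smul_apply, smul_eq_C_mul]
    rw [← h1]; rfl
  have h0 : Φ q - Polynomial.C q = 0 := by
    apply Polynomial.eq_zero_of_infinite_isRoot
    refine Set.Infinite.mono (s := Set.range fun m : ℕ => (C (m : k) : MvPolynomial (Fin n) k))
      ?_ ?_
    · rintro _ ⟨m, rfl⟩
      change Polynomial.eval _ _ = 0
      rw [Polynomial.eval_sub, Polynomial.eval_C, hev]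
      have h2 : ((m : k) • v) = m • v := by
        rw [Nat.cast_smul_eq_nsmul]
      rw [h2, (hv.nsmul m).2 q hq, sub_self]
    · apply Set.infinite_range_of_injective
      intro a b hab
      have := C_injective (Fin n) k hab
      exact_mod_cast this
  have h3 := congrArg (Polynomial.eval (C c)) h0
  rw [Polynomial.eval_sub, Polynomial.eval_C, hev, Polynomial.eval_zero] at h3
  exact sub_eq_zero.1 h3

theorem Good.sum {ι : Type} (s : Finset ι) {K : Submodule k (MvPolynomial (Fin n) k)}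
    {v : ι → Fin n → MvPolynomial (Fin n) k} (hv : ∀ i ∈ s, Good K (v i)) :
    Good K (∑ i ∈ s, v i) := by
  classical
  induction s using Finset.induction_on with
  | empty => rw [Finset.sum_empty]; exact Good.zero K
  | insert a s ha ih =>
    rw [Finset.sum_insert ha]
    exact (hv a (Finset.mem_insert_self _ _)).add
      (ih fun i hi => hv i (Finset.mem_insert_of_mem hi))

/-- the automorphism attached to a good vector -/
noncomputable def tauEquiv [CharZero k] {K : Submodule k (MvPolynomial (Fin n) k)}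
    {v : Fin n → MvPolynomial (Fin n) k} (hv : Good K v) :
    MvPolynomial (Fin n) k ≃ₐ[k] MvPolynomial (Fin n) k :=
  AlgEquiv.ofAlgHom (tau v) (tau ((-1 : k) • v))
    (by
      apply AlgHom.ext
      intro q
      rw [AlgHom.comp_apply, ← tau_add hv (hv.smul (-1)), neg_one_smul, add_neg_cancel]
      exact tau_zero q)
    (by
      apply AlgHom.ext
      intro q
      rw [AlgHom.comp_apply, ← tau_add (hv.smul (-1)) hv, neg_one_smul, neg_add_cancel]
      exact tau_zero q)

/-- the difference cocycle -/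
noncomputable def kap (ρ : Γ →* (MvPolynomial (Fin n) k ≃ₐ[k] MvPolynomial (Fin n) k))
    (t : Γ) (j : Fin n) : MvPolynomial (Fin n) k := ∑ l, C (lc ρ t⁻¹ j l) * Hp ρ t l

theorem Lp_one (j : Fin n) : Lp ρ 1 j = X j := by
  classical
  unfold Lp
  have h1 : ∀ l, lc ρ 1 j l = if j = l then 1 else 0 := by
    intro l
    unfold lc
    rw [map_one]
    change coeff (Finsupp.single l 1) (X j) = _
    rw [coeff_X]
    by_cases h : j = l
    · subst h; simp
    · rw [if_neg h, if_neg]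
      intro h2
      exact h (Finsupp.single_left_injective one_ne_zero h2)
  rw [Finset.sum_eq_single j]
  · rw [h1, if_pos rfl, C_1, one_mul]
  · intro b _ hb
    rw [h1, if_neg (Ne.symm hb), C_0, zero_mul]
  · intro h; exact absurd (Finset.mem_univ _) h

theorem f_eq (he : 2 ≤ e) (hρ : Gap e ρ) (t : Γ) (j : Fin n) :
    ρ t (Lp ρ t⁻¹ j) = X j + kap ρ t j := by
  rw [rho_Lp, lam_Lp he hρ, mul_inv_cancel, Lp_one]
  rfl

theorem kap_good (he : 2 ≤ e) (hρ : Gap e ρ) (t : Γ) : Good (Ksp ρ) (kap ρ t) := by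
  refine ⟨fun j => ?_, fun q hq => ?_⟩
  · unfold kap
    simp only [← smul_eq_C_mul]
    exact Submodule.sum_mem _ fun l _ => Submodule.smul_mem _ _ (Hp_mem _ _)
  · have h1 : tau (kap ρ t) = ((ρ t : _ →ₐ[k] _) : MvPolynomial (Fin n) k →ₐ[k] _).comp
        (lam ρ t⁻¹) := by
      apply MvPolynomial.algHom_ext
      intro j
      rw [AlgHom.comp_apply]
      unfold tau lam
      rw [aeval_X, aeval_X]
      exact (f_eq he hρ t j).symm
    rw [h1, AlgHom.comp_apply, ← rho_eq_lam he hρ t⁻¹ hq]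
    change ρ t (ρ t⁻¹ q) = q
    have h2 : ρ t (ρ t⁻¹ q) = (ρ t * ρ t⁻¹) q := rfl
    rw [h2, ← map_mul, mul_inv_cancel, map_one]
    rfl

theorem rho_f (he : 2 ≤ e) (hρ : Gap e ρ) (s t : Γ) (j : Fin n) :
    ρ s (ρ t (Lp ρ t⁻¹ j)) =
      ∑ l, C (lc ρ s j l) * ρ (s * t) (Lp ρ (s * t)⁻¹ l) := by
  have h1 : Lp ρ t⁻¹ j = ∑ l, C (lc ρ s j l) * Lp ρ (s * t)⁻¹ l := by
    have h2 : Lp ρ t⁻¹ j = lam ρ (s * t)⁻¹ (Lp ρ s j) := by
      rw [lam_Lp he hρ]
      congr 1
      group
    rw [h2]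
    conv_lhs => unfold Lp lam
    rw [map_sum]
    refine Finset.sum_congr rfl fun l _ => ?_
    rw [map_mul, aeval_X, algHom_C, algebraMap_eq]
  have h3 : ρ s (ρ t (Lp ρ t⁻¹ j)) = ρ (s * t) (Lp ρ t⁻¹ j) := by
    rw [map_mul]; rfl
  rw [h3]
  conv_lhs => rw [h1]
  rw [map_sum]
  refine Finset.sum_congr rfl fun l _ => ?_
  rw [map_mul]
  congr 1
  rw [← algebraMap_eq]; exact AlgEquiv.commutes _ _

/-- Main structural theorem: averaging linearizes an action with a degree gap. -/
theorem linearize [CharZero k] (he : 2 ≤ e) (hρ : Gap e ρ) {ι : Type} (S : Finset ι)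
    (hS : S.Nonempty) (g : ι → Γ)
    (havg : ∀ (s : Γ) (j : Fin n), ∑ i ∈ S, ρ (s * g i) (Lp ρ (s * g i)⁻¹ j) =
      ∑ i ∈ S, ρ (g i) (Lp ρ (g i)⁻¹ j)) :
    ∃ φ : MvPolynomial (Fin n) k ≃ₐ[k] MvPolynomial (Fin n) k,
      (∀ j, (φ (X j)).totalDegree ≤ 2 * e - 2 ∧ (φ⁻¹ (X j)).totalDegree ≤ 2 * e - 2) ∧
      ∀ (t : Γ) (j : Fin n), ((φ * ρ t * φ⁻¹) (X j)).IsHomogeneous 1 := by
  have hc : ((S.card : ℕ) : k) ≠ 0 := by
    exact_mod_cast (Finset.card_pos.2 hS).ne'
  set h : Fin n → MvPolynomial (Fin n) k := ((S.card : k)⁻¹) • ∑ i ∈ S, kap ρ (g i) with hh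
  have hgood : Good (Ksp ρ) h :=
    (Good.sum S fun i _ => kap_good he hρ (g i)).smul _
  have hy : ∀ j, (C (S.card : k)) * (X j + h j) =
      ∑ i ∈ S, ρ (g i) (Lp ρ (g i)⁻¹ j) := by
    intro j
    simp only [f_eq he hρ]
    rw [Finset.sum_add_distrib, Finset.sum_const, mul_add, hh, Pi.smul_apply,
      Finset.sum_apply, smul_eq_C_mul, ← mul_assoc, ← C_mul, mul_inv_cancel₀ hc, C_1, one_mul,
      nsmul_eq_mul]
    simp
  have heq : ∀ (s : Γ) (j : Fin n), ρ s (X j + h j) =
      ∑ l, C (lc ρ s j l) * (X l + h l) := by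
    intro s j
    have h1 : C (S.card : k) * ρ s (X j + h j) =
        C (S.card : k) * ∑ l, C (lc ρ s j l) * (X l + h l) := by
      have h2 : C (S.card : k) * ρ s (X j + h j) = ρ s (C (S.card : k) * (X j + h j)) := by
        rw [map_mul]
        congr 1
        rw [← algebraMap_eq]; exact (AlgEquiv.commutes _ _).symm
      rw [h2, hy, map_sum, Finset.mul_sum]
      have h3 : ∀ l, C (S.card : k) * (C (lc ρ s j l) * (X l + h l)) =
          C (lc ρ s j l) * ∑ i ∈ S, ρ (s * g i) (Lp ρ (s * g i)⁻¹ l) := by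
        intro l
        rw [havg s l, ← hy l]; ring
      simp only [h3, rho_f he hρ, Finset.mul_sum]
      rw [Finset.sum_comm]
    have h4 : (C (S.card : k) : MvPolynomial (Fin n) k) ≠ 0 := by
      rw [Ne, C_eq_zero]; exact hc
    exact mul_left_cancel₀ h4 h1
  have hdeg : ∀ q ∈ Ksp ρ, ∀ j, (X j + q).totalDegree ≤ 2 * e - 2 := by
    intro q hq j
    refine le_trans (totalDegree_add _ _) (max_le ?_ ?_)
    · rw [totalDegree_X]; omega
    · exact Finset.sup_le fun m hm => (Ksp_support hρ hq m hm).2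
  have hd : ∀ j, ((tauEquiv hgood)⁻¹ (X j)).totalDegree ≤ 2 * e - 2 ∧
      (((tauEquiv hgood)⁻¹)⁻¹ (X j)).totalDegree ≤ 2 * e - 2 := by
    intro j
    constructor
    · have h6 : (tauEquiv hgood)⁻¹ (X j) = X j + ((-1 : k) • h) j := by
        change tau ((-1 : k) • h) (X j) = _
        unfold tau
        rw [aeval_X]
      rw [h6]
      exact hdeg _ (Submodule.smul_mem _ _ (hgood.1 j)) j
    · rw [inv_inv]
      have h6 : tauEquiv hgood (X j) = X j + h j := by
        change tau h (X j) = _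
        unfold tau
        rw [aeval_X]
      rw [h6]
      exact hdeg _ (hgood.1 j) j
  refine ⟨(tauEquiv hgood)⁻¹, hd, fun t j => ?_⟩
  have h5 : ((tauEquiv hgood)⁻¹ * ρ t * ((tauEquiv hgood)⁻¹)⁻¹) (X j) = Lp ρ t j := by
    rw [inv_inv]
    change (tauEquiv hgood).symm (ρ t (tauEquiv hgood (X j))) = _
    rw [AlgEquiv.symm_apply_eq]
    have h6 : ∀ q, tauEquiv hgood q = tau h q := fun q => rfl
    rw [h6, h6]
    unfold tau Lp
    rw [aeval_X, heq, map_sum]
    refine Finset.sum_congr rfl fun l _ => ?_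
    rw [map_mul, aeval_X, algHom_C, algebraMap_eq]
  rw [h5]
  exact Lp_hom t j

end

end Pool.Agent.H67.QT
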