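import Pool.Agent.H67.QT.FixedPt
import Pool.Agent.H67.QT.Avg
import Pool.Agent.H67.QT.Struct

set_option autoImplicit false

namespace Pool.Agent.H67.QT

open MvPolynomial

section

variable {k : Type} [Field k] [IsAlgClosed k] [CharZero k] {n d : ℕ}

/-- `C ∘ coeff m` as a linear map -/
noncomputable def Ccoeff (m : Fin n →₀ ℕ) :
    MvPolynomial (Fin n) k →ₗ[k] MvPolynomial (Fin n) k where
  toFun p := C (coeff m p)
  map_add' p q := by rw [coeff_add, C_add]
  map_smul' c p := by rw [coeff_smul, smul_eq_mul, C_mul, RingHom.id_apply, smul_eq_C_mul]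

/-- `C ∘ eval p` as a linear map -/
noncomputable def Ceval (p : Fin n → k) :
    MvPolynomial (Fin n) k →ₗ[k] MvPolynomial (Fin n) k where
  toFun q := C (eval p q)
  map_add' q r := by rw [map_add, C_add]
  map_smul' c q := by rw [smul_eval, C_mul, RingHom.id_apply, smul_eq_C_mul]

/-- actions with a degree gap are linearizable -/
theorem gap_linearizable {e : ℕ} (he : 2 ≤ e)
    (ρ : (Fin d → kˣ) →* (MvPolynomial (Fin n) k ≃ₐ[k] MvPolynomial (Fin n) k))
    (hL : ∀ j, (fun t => ρ t (X j)) ∈ Lau k n d) (hρ : Gap e ρ) :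
    ∃ φ : MvPolynomial (Fin n) k ≃ₐ[k] MvPolynomial (Fin n) k,
      (∀ j, (φ (X j)).totalDegree ≤ 2 * e - 2 ∧ (φ⁻¹ (X j)).totalDegree ≤ 2 * e - 2) ∧
      ∀ (t : Fin d → kˣ) (j : Fin n), ((φ * ρ t * φ⁻¹) (X j)).IsHomogeneous 1 := by
  have hlc : ∀ j l, (fun t : Fin d → kˣ => C (lc ρ t⁻¹ j l)) ∈ Lau k n d := by
    intro j l
    exact Lau_inv (Lau_lin (Ccoeff (Finsupp.single l 1)) (hL j))
  have hf : ∀ j, (fun t : Fin d → kˣ => ρ t (Lp ρ t⁻¹ j)) ∈ Lau k n d := by
    intro j
    have h1 : (fun t : Fin d → kˣ => ρ t (Lp ρ t⁻¹ j)) =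
        fun t => ∑ l, C (lc ρ t⁻¹ j l) * ρ t (X l) := by
      funext t
      unfold Lp
      rw [map_sum]
      refine Finset.sum_congr rfl fun l _ => ?_
      rw [map_mul]
      congr 1
      rw [← algebraMap_eq]; exact AlgEquiv.commutes _ _
    rw [h1]
    exact Lau_sum _ _ fun l _ => Lau_mul (hlc j l) (hL l)
  choose N0 hN0 using fun j => avg (hf j)
  let N := ∑ j, N0 j
  have hN : ∀ j, N0 j ≤ N := fun j =>
    Finset.single_le_sum (f := N0) (fun _ _ => Nat.zero_le _) (Finset.mem_univ j)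
  exact linearize he hρ (Finset.univ : Finset (Fin d → rootsOfUnity (2 ^ N) k))
    ⟨1, Finset.mem_univ _⟩ (fun g => iota k d N g) (fun s j => hN0 j N (hN j) s)

/-- an algebraic torus action on affine space has a fixed point -/
theorem torus_fixed
    (ρ : (Fin d → kˣ) →* (MvPolynomial (Fin n) k ≃ₐ[k] MvPolynomial (Fin n) k))
    (hL : ∀ j, (fun t => ρ t (X j)) ∈ Lau k n d) :
    ∃ p : Fin n → k, ∀ (t : Fin d → kˣ) (j : Fin n), eval p (ρ t (X j)) = p j := by
  -- translation invariance of averages must hold for all points, so we average coefficients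
  have hC : ∀ (j : Fin n), ∃ N0 : ℕ, ∀ N, N0 ≤ N → ∀ (s : Fin d → kˣ) (p : Fin n → k),
      ∑ g : Fin d → rootsOfUnity (2 ^ N) k, eval p (ρ (s * iota k d N g) (X j)) =
        ∑ g : Fin d → rootsOfUnity (2 ^ N) k, eval p (ρ (iota k d N g) (X j)) := by
    intro j
    obtain ⟨N0, h0⟩ := avg (hL j)
    refine ⟨N0, fun N hN s p => ?_⟩
    have h1 := congrArg (eval p) (h0 N hN s)
    simpa only [map_sum] using h1
  choose N0 hN0 using hC
  let N := ∑ j, N0 j
  have hN : ∀ j, N0 j ≤ N := fun j =>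
    Finset.single_le_sum (f := N0) (fun _ _ => Nat.zero_le _) (Finset.mem_univ j)
  obtain ⟨p, hp⟩ := exists_fixed k n (Fin d → rootsOfUnity (2 ^ N) k) (isPGroup_tors k d N)
    (ρ.comp (iota k d N))
  have hp' : ∀ (g : Fin d → rootsOfUnity (2 ^ N) k) (q : MvPolynomial (Fin n) k),
      eval p (ρ (iota k d N g) q) = eval p q := by
    intro g q
    have h1 : (aeval p : MvPolynomial (Fin n) k →ₐ[k] k).comp
        ((ρ (iota k d N g) : _ ≃ₐ[k] _) : MvPolynomial (Fin n) k →ₐ[k] _) =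
        (aeval p : MvPolynomial (Fin n) k →ₐ[k] k) := by
      apply MvPolynomial.algHom_ext
      intro j
      rw [AlgHom.comp_apply, aeval_X]
      have h2 := hp g j
      rw [← coe_aeval_eq_eval] at h2
      exact h2
    have h3 := DFunLike.congr_fun h1 q
    rw [AlgHom.comp_apply] at h3
    rw [← coe_aeval_eq_eval]
    exact h3
  refine ⟨p, fun s j => ?_⟩
  have h1 := hN0 j N (hN j) s p
  have h2 : ∀ g : Fin d → rootsOfUnity (2 ^ N) k,
      eval p (ρ (s * iota k d N g) (X j)) = eval p (ρ s (X j)) := by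
    intro g
    have h3 : ρ (s * iota k d N g) (X j) = ρ (iota k d N g) (ρ s (X j)) := by
      rw [mul_comm, map_mul]; rfl
    rw [h3, hp']
  have h4 : ∀ g : Fin d → rootsOfUnity (2 ^ N) k,
      eval p (ρ (iota k d N g) (X j)) = p j := by
    intro g
    rw [hp', eval_X]
  simp only [h2, h4, Finset.sum_const, Finset.card_univ] at h1
  have h5 : ((Fintype.card (Fin d → rootsOfUnity (2 ^ N) k) : ℕ) : k) ≠ 0 := by
    exact_mod_cast Fintype.card_ne_zero
  rw [nsmul_eq_mul, nsmul_eq_mul] at h1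
  exact mul_left_cancel₀ h5 h1

/-- translation by a point -/
noncomputable def trans (p : Fin n → k) :
    MvPolynomial (Fin n) k ≃ₐ[k] MvPolynomial (Fin n) k :=
  AlgEquiv.ofAlgHom (aeval fun j => X j + C (p j)) (aeval fun j => X j - C (p j))
    (by
      apply MvPolynomial.algHom_ext
      intro j
      rw [AlgHom.comp_apply, aeval_X, map_sub, aeval_X, algHom_C, algebraMap_eq]
      simp)
    (by
      apply MvPolynomial.algHom_ext
      intro j
      rw [AlgHom.comp_apply, aeval_X, map_add, aeval_X, algHom_C, algebraMap_eq]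
      simp)

theorem trans_X (p : Fin n → k) (j : Fin n) : trans p (X j) = X j + C (p j) := by
  change aeval (fun j => X j + C (p j)) (X j : MvPolynomial (Fin n) k) = _
  rw [aeval_X]

theorem trans_neg (p : Fin n → k) : (trans (fun i => - p i)) = (trans p)⁻¹ := by
  apply AlgEquiv.ext
  intro q
  change _ = (trans p).symm q
  rw [AlgEquiv.eq_symm_apply]
  have h3 : ((trans p : _ ≃ₐ[k] _) : MvPolynomial (Fin n) k →ₐ[k] _).comp
      ((trans (fun i => - p i) : _ ≃ₐ[k] _) : MvPolynomial (Fin n) k →ₐ[k] _) =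
      AlgHom.id k _ := by
    apply MvPolynomial.algHom_ext
    intro i
    rw [AlgHom.comp_apply]
    change trans p (trans (fun i => - p i) (X i)) = X i
    rw [trans_X, map_add, trans_X]
    have h4 : trans p (C (- p i)) = C (- p i) := by
      rw [← algebraMap_eq]; exact AlgEquiv.commutes _ _
    rw [h4, C_neg]; ring
  exact DFunLike.congr_fun h3 q

theorem trans_eval (p x : Fin n → k) (q : MvPolynomial (Fin n) k) :
    eval x (trans p q) = eval (fun j => x j + p j) q := by
  have h1 : (aeval x : MvPolynomial (Fin n) k →ₐ[k] k).comp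
      ((trans p : _ ≃ₐ[k] _) : MvPolynomial (Fin n) k →ₐ[k] _) =
      (aeval (fun j => x j + p j) : MvPolynomial (Fin n) k →ₐ[k] k) := by
    apply MvPolynomial.algHom_ext
    intro j
    rw [AlgHom.comp_apply, aeval_X]
    change aeval x (trans p (X j)) = _
    rw [trans_X, map_add, aeval_X, algHom_C]
    rfl
  have h3 := DFunLike.congr_fun h1 q
  rw [AlgHom.comp_apply] at h3
  rw [← coe_aeval_eq_eval, ← coe_aeval_eq_eval]
  exact h3

theorem trans_degree (p : Fin n → k) (q : MvPolynomial (Fin n) k) :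
    (trans p q).totalDegree ≤ q.totalDegree := by
  have h1 : trans p q = aeval (fun j => X j + C (p j)) q := rfl
  rw [h1, aeval_def, eval₂_eq']
  refine totalDegree_finsetSum_le fun m hm => ?_
  refine le_trans (totalDegree_mul _ _) ?_
  have h2 : (algebraMap k (MvPolynomial (Fin n) k) (coeff m q)).totalDegree = 0 := by
    rw [algebraMap_eq, totalDegree_C]
  rw [h2, zero_add]
  refine le_trans (totalDegree_finsetProd _ _) ?_
  have h3 : ∀ i : Fin n, ((X i + C (p i) : MvPolynomial (Fin n) k) ^ m i).totalDegree ≤ m i := by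
    intro i
    refine le_trans (totalDegree_pow _ _) ?_
    have h4 : (X i + C (p i) : MvPolynomial (Fin n) k).totalDegree ≤ 1 := by
      refine le_trans (totalDegree_add _ _) ?_
      rw [totalDegree_X, totalDegree_C]
      simp
    calc m i * (X i + C (p i) : MvPolynomial (Fin n) k).totalDegree ≤ m i * 1 :=
          Nat.mul_le_mul_left _ h4
      _ = m i := mul_one _
  refine le_trans (Finset.sum_le_sum fun i _ => h3 i) ?_
  have h5 := le_totalDegree hm
  rw [Finsupp.sum_fintype _ _ (fun _ => rfl)] at h5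
  exact h5

/-- Let `e ≥ 2` and let `p` be a fixed point (any point if `e = 2`).  If the Taylor expansions at
`p` have, apart from terms of degree at most one, only terms of degree in `[e, 2 e - 2]`, then the
action is linearizable. -/
theorem taylor_linearizable
    (ρ : (Fin d → kˣ) →* (MvPolynomial (Fin n) k ≃ₐ[k] MvPolynomial (Fin n) k))
    (hL : ∀ j, (fun t => ρ t (X j)) ∈ Lau k n d)
    (e : ℕ) (he : 2 ≤ e) (p : Fin n → k)
    (hp : ∀ (t : Fin d → kˣ) (j : Fin n), eval p (ρ t (X j)) = p j)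
    (h2 : ∀ (t : Fin d → kˣ) (j : Fin n), ∀ m ∈ (trans p (ρ t (X j))).support,
      m.degree ≤ 1 ∨ (e ≤ m.degree ∧ m.degree ≤ 2 * e - 2)) :
    ∃ φ : MvPolynomial (Fin n) k ≃ₐ[k] MvPolynomial (Fin n) k,
      (∀ j, (φ (X j)).totalDegree ≤ 2 * e - 2 ∧ (φ⁻¹ (X j)).totalDegree ≤ 2 * e - 2) ∧
      ∀ (t : Fin d → kˣ) (j : Fin n), ((φ * ρ t * φ⁻¹) (X j)).IsHomogeneous 1 := by
  let θ := trans p
  let ρ' : (Fin d → kˣ) →* (MvPolynomial (Fin n) k ≃ₐ[k] MvPolynomial (Fin n) k) :=
    (MulAut.conj θ).toMonoidHom.comp ρ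
  have hρ' : ∀ t, ρ' t = θ * ρ t * θ⁻¹ := fun t => rfl
  have hinv : ∀ j, θ⁻¹ (X j) = X j - C (p j) := by
    intro j
    change θ.symm (X j) = _
    rw [AlgEquiv.symm_apply_eq, map_sub, trans_X]
    have h3 : θ (C (p j)) = C (p j) := by
      rw [← algebraMap_eq]; exact AlgEquiv.commutes _ _
    rw [h3]; ring
  have hX : ∀ t j, ρ' t (X j) = θ (ρ t (X j)) - C (p j) := by
    intro t j
    rw [hρ']
    change θ (ρ t (θ⁻¹ (X j))) = _
    rw [hinv, map_sub, map_sub]
    congr 1
    have h3 : ρ t (C (p j)) = C (p j) := by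
      rw [← algebraMap_eq]; exact AlgEquiv.commutes _ _
    have h4 : θ (C (p j)) = C (p j) := by
      rw [← algebraMap_eq]; exact AlgEquiv.commutes _ _
    rw [h3, h4]
  have hL' : ∀ j, (fun t => ρ' t (X j)) ∈ Lau k n d := by
    intro j
    have h3 : (fun t => ρ' t (X j)) =
        (fun t => θ (ρ t (X j))) - fun _ => (C (p j) : MvPolynomial (Fin n) k) := by
      funext t; rw [hX]; rfl
    rw [h3]
    exact (Lau k n d).sub_mem (Lau_lin θ.toLinearMap (hL j)) (Lau_const _)
  have hgap : Gap e ρ' := by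
    intro t j m hm
    have h6 : m ≠ 0 := by
      rintro rfl
      rw [mem_support_iff] at hm
      apply hm
      rw [← constantCoeff_eq, ← eval_zero', hX, map_sub, eval_C, trans_eval]
      simp only [zero_add]
      rw [hp, sub_self]
    have h7 : m.degree ≠ 0 := by
      intro h8
      exact h6 ((Finsupp.degree_eq_zero_iff m).1 h8)
    have h8 : m ∈ (trans p (ρ t (X j))).support := by
      rw [mem_support_iff] at hm ⊢
      rw [hX, coeff_sub, coeff_C, if_neg (Ne.symm h6), sub_zero] at hm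
      exact hm
    rcases h2 t j m h8 with h9 | h9
    · left; omega
    · exact Or.inr h9
  obtain ⟨φ, hd, hφ⟩ := gap_linearizable he ρ' hL' hgap
  refine ⟨φ * θ, fun j => ⟨?_, ?_⟩, fun t j => ?_⟩
  · change (φ (θ (X j))).totalDegree ≤ _
    rw [trans_X, map_add]
    refine le_trans (totalDegree_add _ _) (max_le (hd j).1 ?_)
    have h4 : φ (C (p j)) = C (p j) := by
      rw [← algebraMap_eq]; exact AlgEquiv.commutes _ _
    rw [h4, totalDegree_C]
    exact Nat.zero_le _
  · rw [mul_inv_rev]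
    change (θ⁻¹ (φ⁻¹ (X j))).totalDegree ≤ _
    rw [← trans_neg]
    exact le_trans (trans_degree _ _) (hd j).2
  have h3 : φ * θ * ρ t * (φ * θ)⁻¹ = φ * ρ' t * φ⁻¹ := by
    rw [hρ']; group
  rw [h3]
  exact hφ t j

/-- actions by automorphisms of degree at most two are linearizable -/
theorem quadratic_linearizable
    (ρ : (Fin d → kˣ) →* (MvPolynomial (Fin n) k ≃ₐ[k] MvPolynomial (Fin n) k))
    (hL : ∀ j, (fun t => ρ t (X j)) ∈ Lau k n d)
    (h2 : ∀ t j, (ρ t (X j)).totalDegree ≤ 2) :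
    ∃ φ : MvPolynomial (Fin n) k ≃ₐ[k] MvPolynomial (Fin n) k,
      (∀ j, (φ (X j)).totalDegree ≤ 2 * 2 - 2 ∧ (φ⁻¹ (X j)).totalDegree ≤ 2 * 2 - 2) ∧
      ∀ (t : Fin d → kˣ) (j : Fin n), ((φ * ρ t * φ⁻¹) (X j)).IsHomogeneous 1 := by
  obtain ⟨p, hp⟩ := torus_fixed ρ hL
  refine taylor_linearizable ρ hL 2 le_rfl p hp fun t j m hm => ?_
  have h3 : m.degree ≤ 2 :=
    le_trans (le_totalDegree hm) (le_trans (trans_degree p _) (h2 t j))
  omega

/-- The unified statement. -/
theorem main (e : ℕ) (he : 2 ≤ e) (p : Fin n → k)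
    (ρ : (Fin d → kˣ) →* (MvPolynomial (Fin n) k ≃ₐ[k] MvPolynomial (Fin n) k))
    (halg : ∃ (m : ℕ) (F : Fin n → MvPolynomial (Fin d ⊕ Fin n) k),
      ∀ (t : Fin d → kˣ) (j : Fin n),
        C ((∏ i, ((t i : kˣ) : k)) ^ m) * ρ t (X j) =
          aeval (Sum.elim (fun i : Fin d => C ((t i : kˣ) : k))
            (fun l : Fin n => (X l : MvPolynomial (Fin n) k))) (F j))
    (hp : e = 2 ∨ ∀ (t : Fin d → kˣ) (j : Fin n), eval p (ρ t (X j)) = p j)
    (hT : ∀ (t : Fin d → kˣ) (j : Fin n),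
      ∀ m ∈ (aeval (fun i => X i + C (p i)) (ρ t (X j)) : MvPolynomial (Fin n) k).support,
        m.degree ≤ 1 ∨ (e ≤ m.degree ∧ m.degree ≤ 2 * e - 2)) :
    ∃ φ : MvPolynomial (Fin n) k ≃ₐ[k] MvPolynomial (Fin n) k,
      (∀ j, (φ (X j)).totalDegree ≤ 2 * e - 2 ∧ (φ⁻¹ (X j)).totalDegree ≤ 2 * e - 2) ∧
      ∀ (t : Fin d → kˣ) (j : Fin n), ((φ * ρ t * φ⁻¹) (X j)).IsHomogeneous 1 := by
  obtain ⟨m, F, hF⟩ := halg
  have hL : ∀ j, (fun t => ρ t (X j)) ∈ Lau k n d := fun j =>
    Lau_of_alg _ m (F j) fun t => hF t j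
  rcases hp with hp | hp
  · subst hp
    refine quadratic_linearizable ρ hL fun t j => ?_
    have h1 : ρ t (X j) = trans (fun i => - p i) (trans p (ρ t (X j))) := by
      rw [trans_neg]
      exact ((trans p).symm_apply_apply _).symm
    rw [h1]
    refine le_trans (trans_degree _ _) ?_
    refine Finset.sup_le fun m hm => ?_
    have h5 : m.degree ≤ 1 ∨ (2 ≤ m.degree ∧ m.degree ≤ 2 * 2 - 2) := hT t j m hm
    change m.degree ≤ 2
    omega
  · exact taylor_linearizable ρ hL e he p hp hT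

end

end Pool.Agent.H67.QT
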