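import Mathlib.RingTheory.Nullstellensatz
import Mathlib.RingTheory.Jacobson.Ring
import Mathlib.GroupTheory.PGroup
import Mathlib.GroupTheory.FiniteAbelian.Basic
import Mathlib.FieldTheory.Finite.Basic
import Mathlib.Algebra.MvPolynomial.Monad

set_option autoImplicit false

namespace Pool.Agent.H67.QT

open MvPolynomial

/-- A field that is finitely generated as an abelian group is finite. -/
theorem finite_of_Z (F : Type) [Field F] [Module.Finite ℤ F] : Finite F := by
  obtain ⟨p, hp⟩ := CharP.exists F
  have hp0 : p ≠ 0 := by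
    rintro rfl
    have : CharZero F := CharP.charP_to_charZero F
    have : Algebra.IsIntegral ℤ F := Algebra.IsIntegral.of_finite ℤ F
    have h1 : IsField ℤ := isField_of_isIntegral_of_isField (R := ℤ) (S := F)
      (by
        intro a b hab
        simpa using hab) (Field.toIsField F)
    exact Int.not_isField h1
  apply Module.finite_of_fg_torsion
  intro x
  have hp1 : ((p : ℤ)) ∈ nonZeroDivisors ℤ :=
    mem_nonZeroDivisors_of_ne_zero (by exact_mod_cast hp0)
  refine ⟨⟨(p : ℤ), hp1⟩, ?_⟩
  change ((p : ℤ)) • x = 0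
  rw [zsmul_eq_mul]
  simp

theorem jacobson_Z : IsJacobsonRing ℤ := by
  rw [isJacobsonRing_iff_prime_eq]
  intro P hP
  by_cases h0 : P = ⊥
  · subst h0
    rw [eq_bot_iff]
    intro x hx
    rw [Ideal.mem_jacobson_bot] at hx
    have h1 := hx x
    rw [Int.isUnit_iff] at h1
    have h2 : x = 0 := by
      rcases h1 with h1 | h1
      · have : x * x = 0 := by omega
        simpa using this
      · nlinarith [mul_self_nonneg x]
    rw [h2]
    exact Ideal.zero_mem _
  · have hmax : P.IsMaximal := hP.isMaximal h0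
    exact Ideal.jacobson_eq_self_of_isMaximal

/-- The ring homomorphism argument behind Serre's fixed point theorem:  a finite commutative
`2`-group acting on affine space over an algebraically closed field of characteristic zero has a
fixed point. -/
theorem exists_fixed (k : Type) [Field k] [IsAlgClosed k] [CharZero k] (n : ℕ)
    (G : Type) [CommGroup G] [Fintype G] (hG : IsPGroup 2 G)
    (ρ : G →* (MvPolynomial (Fin n) k ≃ₐ[k] MvPolynomial (Fin n) k)) :
    ∃ p : Fin n → k, ∀ (g : G) (j : Fin n), eval p (ρ g (X j)) = p j := by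
  classical
  by_contra hcon
  -- the ideal generated by the differences
  set v : G × Fin n → MvPolynomial (Fin n) k := fun gj => ρ gj.1 (X gj.2) - X gj.2 with hv
  have htop : Ideal.span (Set.range v) = ⊤ := by
    by_contra hne
    obtain ⟨M, hM, hle⟩ := Ideal.exists_le_maximal _ hne
    obtain ⟨p, hp⟩ := (isMaximal_iff_eq_vanishingIdeal_singleton (K := k)).1 hM
    apply hcon
    refine ⟨p, fun g j => ?_⟩
    have h1 : v (g, j) ∈ M := hle (Ideal.subset_span ⟨(g, j), rfl⟩)
    rw [hp, mem_vanishingIdeal_singleton_iff] at h1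
    simp only [hv, map_sub, aeval_X] at h1
    rw [← coe_aeval_eq_eval]
    exact sub_eq_zero.1 h1
  have h1 : (1 : MvPolynomial (Fin n) k) ∈ Ideal.span (Set.range v) := by
    rw [htop]; trivial
  obtain ⟨a, ha⟩ := Ideal.mem_span_range_iff_exists_fun.1 h1
  -- the ring of coefficients
  let S : Set k := (⋃ gj : G × Fin n, ((ρ gj.1 (X gj.2)).coeffs : Set k)) ∪
    (⋃ gj : G × Fin n, ((a gj).coeffs : Set k)) ∪ {(2 : k)⁻¹}
  have hS : S.Finite := by
    refine Set.Finite.union (Set.Finite.union ?_ ?_) (Set.finite_singleton _)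
    · exact Set.finite_iUnion fun gj => Finset.finite_toSet _
    · exact Set.finite_iUnion fun gj => Finset.finite_toSet _
  let R := Algebra.adjoin ℤ S
  have hR : Algebra.FiniteType ℤ R := by
    exact (Subalgebra.fg_iff_finiteType _).1 ⟨hS.toFinset, by simp [R]⟩
  let f : R →+* k := R.val.toRingHom
  have hf : Function.Injective f := Subtype.val_injective
  have hlift : ∀ q : MvPolynomial (Fin n) k, (q.coeffs : Set k) ⊆ S →
      ∃ q' : MvPolynomial (Fin n) R, map f q' = q := by
    intro q hq
    have h2 : q ∈ Set.range (map (σ := Fin n) f) := by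
      rw [mem_range_map_iff_coeffs_subset]
      intro c hc
      exact ⟨⟨c, Algebra.subset_adjoin (hq hc)⟩, rfl⟩
    exact h2
  have hP : ∀ g j, ∃ q' : MvPolynomial (Fin n) R, map f q' = ρ g (X j) := by
    intro g j
    apply hlift
    intro c hc
    exact Or.inl (Or.inl (Set.mem_iUnion.2 ⟨(g, j), hc⟩))
  have hA : ∀ gj, ∃ q' : MvPolynomial (Fin n) R, map f q' = a gj := by
    intro gj
    apply hlift
    intro c hc
    exact Or.inl (Or.inr (Set.mem_iUnion.2 ⟨gj, hc⟩))
  choose P hP using hP
  choose A hA using hA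
  have hmapinj : Function.Injective (map (σ := Fin n) f) := map_injective f hf
  have hPmul : ∀ g h j, bind₁ (P g) (P h j) = P (g * h) j := by
    intro g h j
    apply hmapinj
    rw [map_bind₁, hP (g * h) j, hP h j, map_mul]
    have : (fun i => map f (P g i)) = fun i => ρ g (X i) := by
      funext i; exact hP g i
    rw [this]
    change _ = ρ g (ρ h (X j))
    have h3 : bind₁ (fun i => ρ g (X i)) = ((ρ g : _ ≃ₐ[k] _) : _ →ₐ[k] _) := by
      apply MvPolynomial.algHom_ext
      intro i
      simp
    rw [h3]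
    rfl
  have hP1 : ∀ j, P 1 j = X j := by
    intro j
    apply hmapinj
    rw [hP, map_one, map_X]
    rfl
  have hsum : ∑ gj : G × Fin n, A gj * (P gj.1 gj.2 - X gj.2) = 1 := by
    apply hmapinj
    rw [map_sum, map_one, ← ha]
    refine Finset.sum_congr rfl fun gj _ => ?_
    rw [map_mul, map_sub, hA, hP, map_X]
  -- reduction modulo a maximal ideal
  obtain ⟨m, hm⟩ := Ideal.exists_maximal R
  let _ : Field (R ⧸ m) := Ideal.Quotient.field m
  have hJ : IsJacobsonRing ℤ := jacobson_Z
  have hft : Algebra.FiniteType ℤ (R ⧸ m) := inferInstance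
  have hfin : Module.Finite ℤ (R ⧸ m) := finite_of_finite_type_of_isJacobsonRing ℤ (R ⧸ m)
  have hfinite : Finite (R ⧸ m) := finite_of_Z _
  have h2ne : (2 : R ⧸ m) ≠ 0 := by
    intro h0
    have h3 : ((2 : R) * ⟨(2 : k)⁻¹, Algebra.subset_adjoin (Or.inr rfl)⟩) = 1 := by
      apply hf
      change (2 : k) * (2 : k)⁻¹ = 1
      exact mul_inv_cancel₀ two_ne_zero
    have h4 := congrArg (Ideal.Quotient.mk m) h3
    rw [map_mul, map_one, map_ofNat, h0, zero_mul] at h4
    exact zero_ne_one h4
  let π : R →+* R ⧸ m := Ideal.Quotient.mk m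
  let act : MulAction G (Fin n → R ⧸ m) :=
    { smul := fun g x j => eval x (map π (P g j))
      one_smul := by
        intro x
        funext j
        change eval x (map π (P 1 j)) = x j
        rw [hP1, map_X, eval_X]
      mul_smul := by
        intro g h x
        funext j
        change eval x (map π (P (g * h) j)) =
          eval (fun i => eval x (map π (P h i))) (map π (P g j))
        rw [mul_comm g h, ← hPmul h g j, map_bind₁]
        rw [eval, eval₂Hom_bind₁]
        rfl }
  have hodd : ¬ 2 ∣ Nat.card (Fin n → R ⧸ m) := by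
    have hft' : Fintype (R ⧸ m) := Fintype.ofFinite _
    rw [Nat.card_fun, Nat.card_eq_fintype_card]
    intro hdvd
    have h3 : 2 ∣ Fintype.card (R ⧸ m) := (Nat.Prime.dvd_of_dvd_pow Nat.prime_two hdvd)
    have h4 : ringChar (R ⧸ m) = 2 :=
      (FiniteField.even_card_iff_char_two (F := R ⧸ m)).2 (Nat.dvd_iff_mod_eq_zero.1 h3)
    apply h2ne
    have h5 : ((ringChar (R ⧸ m) : ℕ) : R ⧸ m) = 0 := ringChar.Nat.cast_ringChar
    rw [h4] at h5
    exact_mod_cast h5
  obtain ⟨x, hx⟩ := hG.nonempty_fixed_point_of_prime_not_dvd_card (Fin n → R ⧸ m) hodd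
  have hx' : ∀ g j, eval x (map π (P g j)) = x j := by
    intro g j
    exact congrFun (hx g) j
  have h5 := congrArg (fun q => eval x (map π q)) hsum
  simp only [map_sum, map_mul, map_sub, map_X, eval_X, map_one, hx', sub_self, mul_zero,
    Finset.sum_const_zero] at h5
  exact zero_ne_one h5

end Pool.Agent.H67.QT
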